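import Pool.Agent.H82.UI.Ekr

/-! # Project UI, stub UI-7: nearly extremal intersecting families are nearly dictators (helper82) -/

set_option autoImplicit false

namespace Pool.Agent.H82.UI

open Finset Pool.Agent.H30.UI Pool.Agent.H82.Diam
open Pool.Agent.H30.Diam (Ev EL ind)

theorem Ev_nonneg' {V : Type} [Fintype V] [DecidableEq V] {q : ℝ} (hq0 : 0 ≤ q) (hq1 : q ≤ 1)
    (P : Finset V → Prop) : 0 ≤ Ev q (fun W => ind (P W)) :=
  EL_nonneg hq0 hq1 _ _ fun _ _ => ind_nonneg _

theorem Ev_le_one' {V : Type} [Fintype V] [DecidableEq V] {q : ℝ} (hq0 : 0 ≤ q) (hq1 : q ≤ 1)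
    (P : Finset V → Prop) : Ev q (fun W => ind (P W)) ≤ 1 :=
  EL_le hq0 hq1 _ _ _ fun _ _ => ind_le_one _

/-- the measure of an up-closed family is nondecreasing -/
theorem Ev_mono_p {V : Type} [Fintype V] [DecidableEq V] {p p' : ℝ} (hp : 0 < p) (hpp : p ≤ p')
    (hp' : p' < 1) {P : Finset V → Prop} (hP : Up P) :
    Ev p (fun W => ind (P W)) ≤ Ev p' (fun W => ind (P W)) := by
  have h0 : 0 < p' := hp.trans_le hpp
  have hlog : Real.log p' < 0 := Real.log_neg h0 hp'
  set t : ℝ := Real.log p / Real.log p' with ht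
  have ht1 : 1 ≤ t := by
    rw [ht, one_le_div_of_neg hlog]
    exact Real.log_le_log hp hpp
  have hpt : p' ^ t = p := by
    rw [Real.rpow_def_of_pos h0, ht, mul_div_cancel₀ _ hlog.ne, Real.exp_log hp]
  have h1 := Ev_rpow (V := V) (q := p') (t := t) h0.le hp'.le ht1 hP
  rw [hpt] at h1
  refine h1.trans ?_
  have h2 := Ev_nonneg' h0.le hp'.le P
  have h3 := Ev_le_one' h0.le hp'.le P
  calc (Ev p' fun W => ind (P W)) ^ t ≤ (Ev p' fun W => ind (P W)) ^ (1 : ℝ) :=
        Real.rpow_le_rpow_of_exponent_ge' h2 h3 (by norm_num) ht1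
    _ = _ := Real.rpow_one _

theorem numeric {δ d e : ℝ} (hδ : 0 < δ) (hd : 0 ≤ d) (hδ1 : δ ≤ 1) (h : 8 * δ + 8 * d ≤ e)
    (he1 : e ≤ 1) (h9 : 2 * (1 - δ ^ 2) ≤ (1 + d) * ((2 - e) * (1 + δ))) : False := by
  have h10 : d * δ ≤ d := by nlinarith
  have h11 : δ ^ 2 ≤ δ := by nlinarith
  have h12 : (1 + d) * (1 + δ) ≤ 1 + (δ + 2 * d) := by linarith
  have h13 : (2 - e) * ((1 + d) * (1 + δ)) ≤ (2 - e) * (1 + (δ + 2 * d)) :=
    mul_le_mul_of_nonneg_left h12 (by linarith)
  have h14 : (2 - e) * (δ + 2 * d) ≤ 2 * (δ + 2 * d) :=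
    mul_le_mul_of_nonneg_right (by linarith) (by linarith)
  have h15 : (1 + d) * ((2 - e) * (1 + δ)) = (2 - e) * ((1 + d) * (1 + δ)) := by ring
  have h16 : (2 - e) * (1 + (δ + 2 * d)) = (2 - e) + (2 - e) * (δ + 2 * d) := by ring
  linarith

theorem dict (hE : S_ekr) (hL : S_lvl) (hR : S_russo) : S_dict := by
  intro a b ε ha hb hε
  set ε' : ℝ := min ε 1 with hε'
  have he0 : 0 < ε' := lt_min hε one_pos
  have he1 : ε' ≤ 1 := min_le_right _ _
  have hee : ε' ≤ ε := min_le_left _ _
  set δ : ℝ := min (1 / 2 - b) (ε' / (8 * (1 + 1 / a))) with hδ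
  have h1a : 0 < 1 + 1 / a := by positivity
  have hδ0 : 0 < δ := lt_min (by linarith) (by positivity)
  have hδb : δ ≤ 1 / 2 - b := min_le_left _ _
  have hδe : δ * (8 * (1 + 1 / a)) ≤ ε' := by
    rw [← le_div_iff₀ (by positivity)]
    exact min_le_right _ _
  have hδa : 8 * δ + 8 * (δ / a) ≤ ε' := by
    have : δ * (8 * (1 + 1 / a)) = 8 * δ + 8 * (δ / a) := by ring
    linarith
  have hda0 : 0 < δ / a := by positivity
  have hδ1 : δ ≤ 1 := by linarith
  refine ⟨δ ^ 2, by positivity, ?_⟩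
  intro V _ _ P hUp hInt p hap hpb hlow
  have hp0 : 0 < p := ha.trans_le hap
  have hpδ : p + δ ≤ 1 / 2 := by linarith
  set l : List V := (univ : Finset V).toList with hl
  have hlf : l.toFinset = (univ : Finset V) := toFinset_univ
  set g : ℝ → ℝ := fun x => EL x l (fun W => ind (P W)) with hg
  set I : ℝ → V → ℝ := fun x i => EL x l (fun W => ind (P (insert i W)) - ind (P (W.erase i)))
    with hI
  have hder : ∀ x : ℝ, HasDerivAt g (∑ i, I x i) x := by
    intro x
    have := hR V l nodup_univ (fun W => ind (P W)) x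
    rw [hlf] at this
    exact this
  obtain ⟨p', hp', hslope⟩ := exists_hasDerivAt_eq_slope g (fun x => ∑ i, I x i)
    (show p < p + δ by linarith) (fun x _ => (hder x).continuousAt.continuousWithinAt)
    (fun x _ => hder x)
  have hp'0 : 0 < p' := hp0.trans hp'.1
  have hp'h : p' ≤ 1 / 2 := hp'.2.le.trans hpδ
  -- the total influence
  have hsum : ∑ i, I p' i ≤ 1 + δ := by
    have h1 : g (p + δ) ≤ p + δ := hE V (p + δ) (by linarith) hpδ P hInt
    have h2 : (1 - δ ^ 2) * p ≤ g p := hlow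
    rw [hslope, div_le_iff₀ (by linarith)]
    nlinarith [mul_pos hδ0 hδ0]
  have hI0 : ∀ i, 0 ≤ I p' i := by
    intro i
    apply EL_nonneg hp'0.le (by linarith)
    intro W _
    have := ind_mono (hUp (W.erase i) (insert i W)
      ((Finset.erase_subset i W).trans (Finset.subset_insert i W)))
    linarith
  -- the level one inequality
  have hvar : 2 * (g p' - g p' ^ 2) ≤ p' * (1 - p') * ∑ i, (I p' i + I p' i ^ 2) := by
    have h1 := hL V p' hp'0.le (by linarith) l nodup_univ (fun W => ind (P W))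
    rw [hlf] at h1
    have h2 : EL p' l (fun W => ind (P W) ^ 2) = g p' := by
      simp only [hg]
      congr 1
      funext W
      exact ind_sq _
    have h3 : ∀ i, EL p' l (fun W => (ind (P (insert i W)) - ind (P (W.erase i))) ^ 2) =
        I p' i := by
      intro i
      simp only [hI]
      congr 1
      funext W
      by_cases hc : P (W.erase i)
      · have hc' : P (insert i W) := hUp _ _
          ((Finset.erase_subset i W).trans (Finset.subset_insert i W)) hc
        rw [ind_true hc, ind_true hc']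
        norm_num
      · rw [ind_false hc, sub_zero]
        exact ind_sq _
    rw [h2] at h1
    simp only [h3] at h1
    exact h1
  have hgp' : (1 - δ ^ 2) * p ≤ g p' := by
    refine hlow.trans ?_
    exact Ev_mono_p hp0 hp'.1.le (by linarith) hUp
  have hgp'2 : g p' ≤ p' := hE V p' hp'0.le hp'h P hInt
  -- a large influence
  have hex : ∃ i, 1 - ε' ≤ I p' i := by
    by_contra hcon
    push Not at hcon
    have h1 : ∑ i, (I p' i + I p' i ^ 2) ≤ (2 - ε') * (1 + δ) := by
      calc ∑ i, (I p' i + I p' i ^ 2) ≤ ∑ i, (2 - ε') * I p' i := by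
            apply Finset.sum_le_sum
            intro i _
            nlinarith [hI0 i, hcon i]
        _ = (2 - ε') * ∑ i, I p' i := by rw [Finset.mul_sum]
        _ ≤ _ := mul_le_mul_of_nonneg_left hsum (by linarith)
    have h2 : 2 * ((1 - δ ^ 2) * p * (1 - p')) ≤ 2 * (g p' - g p' ^ 2) := by
      have hg0 : 0 ≤ (1 - δ ^ 2) * p := mul_nonneg (by nlinarith) hp0.le
      nlinarith
    have h3 : 2 * ((1 - δ ^ 2) * p) * (1 - p') ≤ p' * ((2 - ε') * (1 + δ)) * (1 - p') := by
      have h4 : p' * (1 - p') * ∑ i, (I p' i + I p' i ^ 2) ≤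
          p' * (1 - p') * ((2 - ε') * (1 + δ)) :=
        mul_le_mul_of_nonneg_left h1 (mul_nonneg hp'0.le (by linarith))
      nlinarith
    have h5 : 2 * ((1 - δ ^ 2) * p) ≤ p' * ((2 - ε') * (1 + δ)) :=
      le_of_mul_le_mul_right h3 (by linarith)
    have h6 : p' ≤ p * (1 + δ / a) := by
      have : δ ≤ p * (δ / a) := by
        calc δ = a * (δ / a) := by field_simp
          _ ≤ p * (δ / a) := mul_le_mul_of_nonneg_right hap hda0.le
      nlinarith [hp'.2]
    have h7 : p * (2 * (1 - δ ^ 2)) ≤ p * ((1 + δ / a) * ((2 - ε') * (1 + δ))) := by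
      have h8 : p' * ((2 - ε') * (1 + δ)) ≤ p * (1 + δ / a) * ((2 - ε') * (1 + δ)) :=
        mul_le_mul_of_nonneg_right h6 (mul_nonneg (by linarith) (by linarith))
      linarith
    have h9 : 2 * (1 - δ ^ 2) ≤ (1 + δ / a) * ((2 - ε') * (1 + δ)) :=
      le_of_mul_le_mul_left h7 hp0
    exact numeric hδ0 hda0.le hδ1 hδa he1 h9
  obtain ⟨i, hi⟩ := hex
  refine ⟨i, ?_⟩
  have hQ : Up (fun W : Finset V => P (W.erase i)) := fun A B hAB h =>
    hUp _ _ (Finset.erase_subset_erase i hAB) h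
  refine (Ev_mono_p hp0 hp'.1.le (by linarith) hQ).trans ?_
  have h1 : Ev p' (fun W => ind (P (W.erase i))) + I p' i ≤ 1 := by
    simp only [hI]
    unfold Ev
    rw [← hl, ← EL_add]
    apply EL_le hp'0.le (by linarith)
    intro W _
    have := ind_le_one (P (insert i W))
    linarith
  linarith

end Pool.Agent.H82.UI
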