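import Pool.Agent.H30.UI.Stubs
import Pool.Agent.H82.Diam.Slice

/-! # Project UI, stub UI-3: the measure form of the Erdos-Ko-Rado theorem (helper82)

Proof: for up-closed `P` and `t ≥ 1`, `μ_{q^t}(P) ≤ μ_q(P)^t` (induction on the coordinates, by the
convexity of `x ↦ x^t`); `μ_{1/2}(P) ≤ 1/2` for an intersecting `P` (complements). -/

set_option autoImplicit false

namespace Pool.Agent.H82.UI

open Finset Pool.Agent.H30.UI Pool.Agent.H82.Diam
open Pool.Agent.H30.Diam (Ev EL ind)

/-- two point convexity -/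
theorem rpow_two {a A q t : ℝ} (ha : 0 ≤ a) (haA : a ≤ A) (hq0 : 0 ≤ q) (hq1 : q ≤ 1)
    (ht : 1 ≤ t) : (1 - q ^ t) * a ^ t + q ^ t * A ^ t ≤ ((1 - q) * a + q * A) ^ t := by
  have hA : 0 ≤ A := ha.trans haA
  set M : ℝ := (1 - q) * a + q * A with hM
  have h1 : q * a ≤ a := by nlinarith
  have h2 : a ≤ M := by rw [hM]; nlinarith
  have h3 : q * A ≤ M := by rw [hM]; nlinarith
  have hM0 : 0 ≤ M := ha.trans h2
  have hqa : 0 ≤ q * a := mul_nonneg hq0 ha
  have key : a ^ t + (q * A) ^ t ≤ (q * a) ^ t + M ^ t := by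
    rcases (h1.trans h2).eq_or_lt with h | h
    · have e1 : a = q * a := le_antisymm (h2.trans h.symm.le) h1
      have e2 : q * A = q * a := le_antisymm (h3.trans h.symm.le) (by nlinarith)
      rw [e2, ← h, ← e1]
    · have hc := convexOn_rpow ht
      have hd : 0 < M - q * a := by linarith
      set l : ℝ := (M - a) / (M - q * a) with hl
      have hl0 : 0 ≤ l := div_nonneg (by linarith) hd.le
      have hl1 : 0 ≤ 1 - l := by
        rw [hl, sub_nonneg, div_le_one hd]
        linarith
      have e0 : l * (M - q * a) = M - a := by rw [hl, div_mul_cancel₀ _ hd.ne']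
      have e1 : l • (q * a) + (1 - l) • M = a := by
        simp only [smul_eq_mul]
        linear_combination -e0
      have e2 : (1 - l) • (q * a) + l • M = q * A := by
        simp only [smul_eq_mul]
        rw [hM] at e0 ⊢
        linear_combination e0
      have g1 := hc.2 (x := q * a) hqa (y := M) hM0 hl0 hl1 (by ring)
      have g2 := hc.2 (x := q * a) hqa (y := M) hM0 hl1 hl0 (by ring)
      rw [e1] at g1
      rw [e2] at g2
      simp only [smul_eq_mul] at g1 g2
      linarith
  rw [Real.mul_rpow hq0 hA, Real.mul_rpow hq0 ha] at key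
  linarith

/-- **the power inequality for the measures of an up-closed family** -/
theorem EL_rpow {α : Type} [DecidableEq α] {q t : ℝ} (hq0 : 0 ≤ q) (hq1 : q ≤ 1) (ht : 1 ≤ t) :
    ∀ (l : List α) (P : Finset α → Prop), Up P →
      EL (q ^ t) l (fun W => ind (P W)) ≤ (EL q l (fun W => ind (P W))) ^ t := by
  have ht0 : t ≠ 0 := by linarith
  have hqt0 : 0 ≤ q ^ t := Real.rpow_nonneg hq0 t
  have hqt1 : q ^ t ≤ 1 := Real.rpow_le_one hq0 hq1 (by linarith)
  intro l
  induction l with
  | nil =>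
    intro P _
    rw [EL_nil, EL_nil]
    by_cases h : P ∅
    · rw [ind_true h, Real.one_rpow]
    · rw [ind_false h, Real.zero_rpow ht0]
  | cons a l ih =>
    intro P hP
    have hP' : Up (fun W => P (insert a W)) := fun A B hAB h => hP _ _ (Finset.insert_subset_insert a hAB) h
    rw [EL_cons, EL_cons]
    have h1 := ih P hP
    have h2 := ih _ hP'
    have h3 : EL q l (fun W => ind (P W)) ≤ EL q l (fun W => ind (P (insert a W))) :=
      EL_mono hq0 hq1 l _ _ fun W _ => ind_mono (hP _ _ (Finset.subset_insert a W))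
    have h4 : 0 ≤ EL q l (fun W => ind (P W)) := EL_nonneg hq0 hq1 l _ fun W _ => ind_nonneg _
    refine le_trans ?_ (rpow_two h4 h3 hq0 hq1 ht)
    exact add_le_add (mul_le_mul_of_nonneg_left h1 (by linarith)) (mul_le_mul_of_nonneg_left h2 hqt0)

theorem Ev_rpow {V : Type} [Fintype V] [DecidableEq V] {q t : ℝ} (hq0 : 0 ≤ q) (hq1 : q ≤ 1)
    (ht : 1 ≤ t) {P : Finset V → Prop} (hP : Up P) :
    Ev (q ^ t) (fun W => ind (P W)) ≤ (Ev q (fun W => ind (P W))) ^ t :=
  EL_rpow hq0 hq1 ht _ P hP

theorem EL_zero {α : Type} [DecidableEq α] (l : List α) (f : Finset α → ℝ) : EL 0 l f = f ∅ := by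
  induction l generalizing f with
  | nil => rfl
  | cons a l ih => rw [EL_cons, ih]; ring

theorem Ev_half {V : Type} [Fintype V] [DecidableEq V] {P : Finset V → Prop} (hI : Int P) :
    Ev (1 / 2 : ℝ) (fun W => ind (P W)) ≤ 1 / 2 := by
  have h1 : Ev (1 / 2 : ℝ) (fun W : Finset V => ind (P W)) =
      Ev (1 / 2 : ℝ) (fun W : Finset V => ind (P Wᶜ)) := by
    rw [Ev_formula, Ev_formula]
    refine Finset.sum_nbij' (fun W => Wᶜ) (fun W => Wᶜ) ?_ ?_ ?_ ?_ ?_
    · intro W _; exact Finset.mem_powerset.2 (Finset.subset_univ _)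
    · intro W _; exact Finset.mem_powerset.2 (Finset.subset_univ _)
    · intro W _; exact compl_compl W
    · intro W _; exact compl_compl W
    · intro W _
      rw [compl_compl]
      have h2 : W.card + Wᶜ.card = Fintype.card V := Finset.card_add_card_compl W
      have h3 : ∀ a b : ℕ, ((1 : ℝ) / 2) ^ a * (1 - 1 / 2) ^ b = (1 / 2) ^ (a + b) := by
        intro a b
        rw [pow_add]
        norm_num
      rw [h3, h3]
      congr 2
      omega
  have h2 : Ev (1 / 2 : ℝ) (fun W : Finset V => ind (P W)) +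
      Ev (1 / 2 : ℝ) (fun W : Finset V => ind (P Wᶜ)) ≤ 1 := by
    unfold Ev
    rw [← EL_add]
    apply EL_le (by norm_num) (by norm_num)
    intro W _
    by_cases h : P W
    · have h' : ¬ P Wᶜ := fun hc => hI _ _ h hc disjoint_compl_right
      rw [ind_true h, ind_false h']
      norm_num
    · rw [ind_false h, zero_add]
      exact ind_le_one _
  linarith

theorem ekr : S_ekr := by
  intro V _ _ p hp0 hp2 P hI
  set P' : Finset V → Prop := fun W => ∃ A ⊆ W, P A with hP'
  have hUp : Up P' := fun A B hAB ⟨C, hC, h⟩ => ⟨C, hC.trans hAB, h⟩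
  have hI' : Int P' := by
    rintro A B ⟨A', hA, hPA⟩ ⟨B', hB, hPB⟩ hd
    exact hI A' B' hPA hPB (Finset.disjoint_of_subset_left hA (Finset.disjoint_of_subset_right hB hd))
  have hle : Ev p (fun W => ind (P W)) ≤ Ev p (fun W => ind (P' W)) :=
    EL_mono hp0 (by linarith) _ _ _ fun W _ => ind_mono fun h => ⟨W, Finset.Subset.refl W, h⟩
  refine hle.trans ?_
  rcases hp0.eq_or_lt with h | h
  · rw [← h]
    unfold Ev
    rw [EL_zero, ind_false]
    intro hc
    exact hI' _ _ hc hc (Finset.disjoint_empty_left _)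
  · set t : ℝ := Real.log p / Real.log (1 / 2) with ht
    have hlog2 : Real.log (1 / 2) < 0 := Real.log_neg (by norm_num) (by norm_num)
    have ht1 : 1 ≤ t := by
      rw [ht, one_le_div_of_neg hlog2]
      exact Real.log_le_log h hp2
    have hpt : ((1 : ℝ) / 2) ^ t = p := by
      rw [Real.rpow_def_of_pos (by norm_num), ht, mul_div_cancel₀ _ hlog2.ne, Real.exp_log h]
    have h1 := Ev_rpow (V := V) (q := 1 / 2) (t := t) (by norm_num) (by norm_num) ht1 hUp
    rw [hpt] at h1
    refine h1.trans ?_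
    calc (Ev (1 / 2 : ℝ) fun W => ind (P' W)) ^ t ≤ ((1 : ℝ) / 2) ^ t :=
          Real.rpow_le_rpow (EL_nonneg (by norm_num) (by norm_num) _ _ fun W _ => ind_nonneg _)
            (Ev_half hI') (by linarith)
      _ = p := hpt

end Pool.Agent.H82.UI
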