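import Pool.Agent.H30.UI.Stubs

/-! # Project UI, stub UI-20: a small union by averaging (helper82) -/

set_option autoImplicit false

namespace Pool.Agent.H82.UI

open Finset Pool.Agent.H30.UI

section
variable {V : Type} [DecidableEq V]

/-- points of `E` not covered -/
def Nf (E : Finset V) {G : Finset (Finset V)} {u : ℕ} (f : Fin u → {A // A ∈ G}) : Finset V :=
  E.filter (fun y => ∀ i, y ∉ (f i : Finset V))

theorem sum_Nf (E : Finset V) (G : Finset (Finset V)) (u : ℕ) :
    ∑ f : Fin u → {A // A ∈ G}, (Nf E f).card =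
      ∑ y ∈ E, ((G.filter (fun A => y ∉ A)).card) ^ u := by
  unfold Nf
  simp only [card_filter]
  rw [sum_comm]
  refine sum_congr rfl fun y _ => ?_
  rw [← card_filter, ← card_filter]
  have h1 : (univ.filter (fun f : Fin u → {A // A ∈ G} => ∀ i, y ∉ (f i : Finset V))) =
      Fintype.piFinset (fun _ : Fin u =>
        (univ : Finset {A // A ∈ G}).filter (fun A : {A // A ∈ G} => y ∉ A.1)) := by
    ext f
    simp [Fintype.mem_piFinset]
  rw [h1, Fintype.card_piFinset_const]
  congr 1
  rw [← card_map (Function.Embedding.subtype _)]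
  congr 1
  ext A
  simp only [mem_map, mem_filter, mem_univ, true_and, Function.Embedding.coe_subtype,
    Subtype.exists, exists_and_right, exists_eq_right]
  constructor
  · rintro ⟨h1, h2⟩; exact ⟨h1, h2⟩
  · rintro ⟨h1, h2⟩; exact ⟨h1, h2⟩

/-- number of injective tuples -/
theorem card_inj (G : Finset (Finset V)) (u : ℕ) :
    (univ.filter (fun f : Fin u → {A // A ∈ G} => Function.Injective f)).card =
      G.card.descFactorial u := by
  rw [← Fintype.card_subtype, Fintype.card_congr (Equiv.subtypeInjectiveEquivEmbedding _ _),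
    Fintype.card_embedding_eq]
  simp

theorem desc_ge (g u : ℕ) (hu : 1 ≤ u) (hug : u ≤ g) :
    (g : ℝ) ^ u * (1 - (u : ℝ) ^ 2 / g) ≤ (g.descFactorial u : ℝ) := by
  have hg : (0 : ℝ) < g := by exact_mod_cast (by omega : 0 < g)
  have h1 : ((g + 1 - u : ℕ) : ℝ) ^ u ≤ (g.descFactorial u : ℝ) := by
    exact_mod_cast Nat.pow_sub_le_descFactorial g u
  refine le_trans ?_ h1
  have h2 : ((g + 1 - u : ℕ) : ℝ) = g + 1 - u := by
    rw [Nat.cast_sub (by omega)]
    push_cast
    ring
  rw [h2]
  have h3 : (g : ℝ) * (1 - u / g) ≤ g + 1 - u := by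
    rw [mul_sub, mul_one, mul_div_cancel₀ _ hg.ne']
    linarith
  have h4 : (0 : ℝ) ≤ 1 - u / g := by
    rw [sub_nonneg, div_le_one hg]
    exact_mod_cast hug
  calc (g : ℝ) ^ u * (1 - (u : ℝ) ^ 2 / g) ≤ (g : ℝ) ^ u * (1 - u / g) ^ u := by
        refine mul_le_mul_of_nonneg_left ?_ (by positivity)
        have h5 := one_add_mul_le_pow (a := -((u : ℝ) / g)) (by linarith) u
        have h6 : 1 + (u : ℝ) * -((u : ℝ) / g) = 1 - (u : ℝ) ^ 2 / g := by ring
        rw [h6] at h5
        have h7 : 1 + -((u : ℝ) / g) = 1 - u / g := by ring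
        rwa [h7] at h5
    _ = ((g : ℝ) * (1 - u / g)) ^ u := by rw [mul_pow]
    _ ≤ _ := pow_le_pow_left₀ (by positivity) h3 u

theorem exU : S_exU := by
  intro V _ E G k u hG hu huG hE
  set m : ℕ := E.card with hm
  set g : ℕ := G.card with hg
  have hm0 : 0 < m := hE.card_pos
  have hg0 : 0 < g := by omega
  have hm0' : (0 : ℝ) < m := by exact_mod_cast hm0
  have hg0' : (0 : ℝ) < g := by exact_mod_cast hg0
  -- degrees
  have hdeg : ∑ y ∈ E, ((G.filter (fun A => y ∉ A)).card : ℝ) = g * (m - k) := by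
    have h1 : ∀ y ∈ E, ((G.filter (fun A => y ∉ A)).card : ℝ) =
        g - ((G.filter (fun A => y ∈ A)).card : ℝ) := by
      intro y _
      have := card_filter_add_card_filter_not (s := G) (fun A => y ∈ A)
      have h2 : ((G.filter (fun A => y ∈ A)).card : ℝ) + ((G.filter (fun A => y ∉ A)).card : ℝ) =
          g := by exact_mod_cast this
      linarith
    rw [sum_congr rfl h1, sum_sub_distrib, sum_const, nsmul_eq_mul]
    have h2 : ∑ y ∈ E, (G.filter (fun A => y ∈ A)).card = ∑ A ∈ G, k := by
      simp only [card_filter]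
      rw [sum_comm]
      refine sum_congr rfl fun A hA => ?_
      rw [← card_filter]
      have h3 : E.filter (fun y => y ∈ A) = A := by
        ext y
        rw [mem_filter]
        exact ⟨fun h => h.2, fun h => ⟨(hG A hA).1 h, h⟩⟩
      rw [h3, (hG A hA).2]
    have h3 : ∑ y ∈ E, ((G.filter (fun A => y ∈ A)).card : ℝ) = g * k := by
      rw [sum_const, smul_eq_mul] at h2
      exact_mod_cast h2
    rw [h3]
    ring
  -- power mean
  have hpm : (m : ℝ) * ((g : ℝ) ^ u * (1 - (k : ℝ) / m) ^ u) ≤
      ∑ y ∈ E, ((G.filter (fun A => y ∉ A)).card : ℝ) ^ u := by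
    obtain ⟨u', rfl⟩ : ∃ u', u = u' + 1 := ⟨u - 1, by omega⟩
    have h1 := pow_sum_div_card_le_sum_pow (s := E)
      (f := fun y => ((G.filter (fun A => y ∉ A)).card : ℝ)) (fun _ _ => Nat.cast_nonneg _) u'
    refine le_trans (le_of_eq ?_) h1
    rw [hdeg, ← hm, ← mul_pow]
    have h2 : (g : ℝ) * (1 - (k : ℝ) / m) = g * (m - k) / m := by field_simp
    rw [h2, div_pow, pow_succ (m : ℝ)]
    field_simp
  -- the sum over all tuples
  have hsum : ∑ f : Fin u → {A // A ∈ G}, ((Nf E f).card : ℝ) =
      ∑ y ∈ E, ((G.filter (fun A => y ∉ A)).card : ℝ) ^ u := by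
    have := sum_Nf E G u
    exact_mod_cast this
  have hall : (Fintype.card (Fin u → {A // A ∈ G}) : ℝ) = (g : ℝ) ^ u := by
    simp [hg]
  set T : ℝ := (m : ℝ) * (1 - (k : ℝ) / m) ^ u - m * u ^ 2 / g with hT
  -- an injective tuple
  have hex : ∃ f : Fin u → {A // A ∈ G}, Function.Injective f ∧ T ≤ ((Nf E f).card : ℝ) := by
    by_contra hcon
    push Not at hcon
    have hne : (univ.filter (fun f : Fin u → {A // A ∈ G} => Function.Injective f)).Nonempty := by
      rw [← card_pos, card_inj, Nat.descFactorial_pos]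
      exact huG
    have hTpos : 0 < T := by
      obtain ⟨f, hf⟩ := hne
      exact lt_of_le_of_lt (Nat.cast_nonneg _) (hcon f (mem_filter.1 hf).2)
    have h1 : ∑ f ∈ univ.filter (fun f : Fin u → {A // A ∈ G} => Function.Injective f),
        ((Nf E f).card : ℝ) < (g.descFactorial u : ℝ) * T := by
      rw [← card_inj G u, ← nsmul_eq_mul, ← sum_const]
      exact sum_lt_sum_of_nonempty hne fun f hf => hcon f (mem_filter.1 hf).2
    have h2 : ∑ f ∈ univ.filter (fun f : Fin u → {A // A ∈ G} => ¬ Function.Injective f),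
        ((Nf E f).card : ℝ) ≤ ((g : ℝ) ^ u - g.descFactorial u) * m := by
      have h3 : ((univ.filter (fun f : Fin u → {A // A ∈ G} => ¬ Function.Injective f)).card : ℝ) =
          (g : ℝ) ^ u - g.descFactorial u := by
        have h4 := card_filter_add_card_filter_not (s := (univ : Finset (Fin u → {A // A ∈ G})))
          (fun f => Function.Injective f)
        rw [card_inj, card_univ] at h4
        have h5 : (g.descFactorial u : ℝ) + ((univ.filter
          (fun f : Fin u → {A // A ∈ G} => ¬ Function.Injective f)).card : ℝ) = (g : ℝ) ^ u := by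
          rw [← hall]
          exact_mod_cast h4
        linarith
      rw [← h3, ← nsmul_eq_mul, ← sum_const]
      refine sum_le_sum fun f _ => ?_
      exact_mod_cast card_filter_le _ _
    have h3 := sum_filter_add_sum_filter_not (univ : Finset (Fin u → {A // A ∈ G}))
      (fun f => Function.Injective f) (fun f => ((Nf E f).card : ℝ))
    rw [hsum] at h3
    have h4 := desc_ge g u hu huG
    have h5 : (g.descFactorial u : ℝ) ≤ (g : ℝ) ^ u := by
      exact_mod_cast Nat.descFactorial_le_pow g u
    have h6 : (g.descFactorial u : ℝ) * T ≤ (g : ℝ) ^ u * T := mul_le_mul_of_nonneg_right h5 hTpos.le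
    have h7 : ((g : ℝ) ^ u - g.descFactorial u) * m ≤ (g : ℝ) ^ u * ((u : ℝ) ^ 2 / g) * m := by
      refine mul_le_mul_of_nonneg_right ?_ hm0'.le
      linarith
    have h8 : (g : ℝ) ^ u * T + (g : ℝ) ^ u * ((u : ℝ) ^ 2 / g) * m =
        (m : ℝ) * ((g : ℝ) ^ u * (1 - (k : ℝ) / m) ^ u) := by rw [hT]; ring
    linarith
  obtain ⟨f, hf, hTf⟩ := hex
  refine ⟨univ.image (fun i => (f i : Finset V)), ?_, ?_, ?_⟩
  · intro A hA
    obtain ⟨i, -, rfl⟩ := mem_image.1 hA
    exact (f i).2
  · rw [card_image_of_injective (f := fun i => (f i : Finset V)) _ (Subtype.val_injective.comp hf),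
      card_univ, Fintype.card_fin]
  · refine hTf.trans (le_of_eq ?_)
    have h1 : Nf E f = E \ (univ.image (fun i => (f i : Finset V))).biUnion id := by
      ext y
      simp only [Nf, mem_filter, mem_sdiff, mem_biUnion, mem_image, mem_univ, true_and, id,
        exists_exists_eq_and, not_exists]
    have h2 : (univ.image (fun i => (f i : Finset V))).biUnion id ⊆ E := by
      intro y hy
      simp only [mem_biUnion, mem_image, mem_univ, true_and, id, exists_exists_eq_and] at hy
      obtain ⟨i, hi⟩ := hy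
      exact (hG _ (f i).2).1 hi
    rw [h1, card_sdiff_of_subset h2, Nat.cast_sub (card_le_card h2)]

end

end Pool.Agent.H82.UI
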