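import Pool.Agent.H30.UI.Stubs

/-! # Project UI, stub UI-27: a star plus a packing (helper82) -/

set_option autoImplicit false

namespace Pool.Agent.H82.UI

open Finset Pool.Agent.H30.UI

theorem card_star {V : Type} [Fintype V] [DecidableEq V] (x : V) {k : ℕ} (hk : 1 ≤ k) :
    ((powersetCard k (univ : Finset V)).filter (fun A => x ∈ A)).card =
      (Fintype.card V - 1).choose (k - 1) := by
  have h : (powersetCard (k - 1) ((univ : Finset V).erase x)).card =
      (Fintype.card V - 1).choose (k - 1) := by
    rw [card_powersetCard, card_erase_of_mem (mem_univ x), card_univ]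
  rw [← h]
  refine card_nbij' (fun A => A.erase x) (fun B => insert x B) ?_ ?_ ?_ ?_
  · intro A hA
    obtain ⟨h1, h2⟩ := mem_filter.1 hA
    obtain ⟨-, h3⟩ := mem_powersetCard.1 h1
    refine mem_powersetCard.2 ⟨erase_subset_erase x (subset_univ A), ?_⟩
    rw [card_erase_of_mem h2, h3]
  · intro B hB
    obtain ⟨h1, h2⟩ := mem_powersetCard.1 hB
    have hx : x ∉ B := fun h => (mem_erase.1 (h1 h)).1 rfl
    refine mem_filter.2 ⟨mem_powersetCard.2 ⟨subset_univ _, ?_⟩, mem_insert_self _ _⟩
    rw [card_insert_of_notMem hx, h2]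
    omega
  · intro A hA
    exact insert_erase (mem_filter.1 hA).2
  · intro B hB
    obtain ⟨h1, h2⟩ := mem_powersetCard.1 hB
    have hx : x ∉ B := fun h => (mem_erase.1 (h1 h)).1 rfl
    exact erase_insert hx

/-- at most one `k`-set is disjoint from a large set -/
theorem card_le_one_of_disj {V : Type} [Fintype V] [DecidableEq V] {W : Finset V} {k : ℕ}
    (h : Fintype.card V ≤ W.card + k) {Q : Finset (Finset V)} (hQ : ∀ B ∈ Q, B.card = k ∧ Disjoint B W) :
    Q.card ≤ 1 := by
  have key : ∀ B ∈ Q, B = Wᶜ := by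
    intro B hB
    obtain ⟨h1, h2⟩ := hQ B hB
    refine eq_of_subset_of_card_le ?_ ?_
    · intro y hy
      exact mem_compl.2 (disjoint_left.1 h2 hy)
    · rw [card_compl, h1]
      omega
  rw [card_le_one]
  intro a ha b hb
  rw [key a ha, key b hb]

theorem free : S_free := by
  intro V _ _ x G k u v hG hk hu huv hyp
  set S := (powersetCard k (univ : Finset V)).filter (fun A => x ∈ A) with hS
  have hcard : ∀ A ∈ G ∪ S, A.card = k := by
    intro A hA
    rcases mem_union.1 hA with h | h
    · exact (hG A h).2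
    · exact (mem_powersetCard.1 (mem_filter.1 h).1).2
  have hsub : ∀ P ⊆ G ∪ S, (∀ A ∈ P, x ∉ A) → P ⊆ G := by
    intro P hP hx A hA
    rcases mem_union.1 (hP hA) with h | h
    · exact h
    · exact absurd (mem_filter.1 h).2 (hx A hA)
  refine ⟨?_, ?_⟩
  · intro P hP Q hQ hPu hQv
    by_contra hcon
    push Not at hcon
    by_cases hPx : ∀ A ∈ P, x ∉ A
    · have hPG := hsub P hP hPx
      have h1 : u ≤ G.card := hPu ▸ card_le_card hPG
      rcases hyp with h | ⟨h2, -, h3⟩
      · omega
      · have h4 := h3 P hPG hPu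
        have h5 := card_le_one_of_disj h4 (Q := Q) (fun B hB => ⟨hcard B (hQ hB), by
          rw [disjoint_comm, disjoint_biUnion_left]
          intro A hA
          exact hcon A hA B hB⟩)
        omega
    · push Not at hPx
      obtain ⟨A₀, hA₀, hx₀⟩ := hPx
      have hQx : ∀ B ∈ Q, x ∉ B := fun B hB hxB =>
        disjoint_left.1 (hcon A₀ hA₀ B hB) hx₀ hxB
      have hQG := hsub Q hQ hQx
      have h1 : v ≤ G.card := hQv ▸ card_le_card hQG
      rcases hyp with h | ⟨h2, h2', h3⟩
      · omega
      · have hu2 : 2 ≤ u := by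
          rcases h2' with h | h
          · exact h
          · omega
        obtain ⟨U, hUQ, hUu⟩ := exists_subset_card_eq (hQv ▸ huv : u ≤ Q.card)
        have h4 := h3 U (hUQ.trans hQG) hUu
        have h5 := card_le_one_of_disj h4 (Q := P) (fun B hB => ⟨hcard B (hP hB), by
          rw [disjoint_comm, disjoint_biUnion_left]
          intro A hA
          exact (hcon B hB A (hUQ hA)).symm⟩)
        omega
  · have hd : Disjoint G S := by
      rw [disjoint_left]
      intro A h1 h2
      exact (hG A h1).1 (mem_filter.1 h2).2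
    rw [card_union_of_disjoint hd, hS, card_star x hk, add_comm]

end Pool.Agent.H82.UI
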