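import Pool.Agent.H30.UI.Stubs
import Pool.Agent.H92.Diam.KK

/-! # Project UI, stub UI-13: the theorem of Kruskal and Katona in a finite set (helper82) -/

set_option autoImplicit false

namespace Pool.Agent.H82.UI

open Finset Pool.Agent.H30.UI Pool.Agent.H92.Diam

open scoped FinsetFamily in
theorem kk2 : S_kk2 := by
  intro V _ E Z j r s hZ hjr hrs hs
  rcases Nat.eq_zero_or_pos r with hr | hr
  · subst hr
    have hj : j = 0 := by omega
    subst hj
    rw [Nat.choose_zero_right] at hs ⊢
    rw [Nat.succ_le_iff, card_pos] at hs ⊢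
    obtain ⟨A, hA⟩ := hs
    exact ⟨∅, mem_filter.2 ⟨by simp, A, hA, empty_subset _⟩⟩
  have hZc : Z.card ≤ E.card.choose r := by
    rw [← card_powersetCard]
    exact card_le_card fun A hA => mem_powersetCard.2 (hZ A hA)
  have hsE : s ≤ E.card := by
    by_contra hcon
    push Not at hcon
    have h1 : (E.card + 1).choose r ≤ s.choose r := Nat.choose_le_choose r hcon
    have h2 : E.card.choose r < (E.card + 1).choose r ∨ E.card.choose r = 0 := by
      rcases Nat.lt_or_ge E.card (r - 1) with h | h
      · right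
        exact Nat.choose_eq_zero_of_lt (by omega)
      · left
        obtain ⟨r', rfl⟩ : ∃ r', r = r' + 1 := ⟨r - 1, by omega⟩
        rw [Nat.choose_succ_succ]
        have : 0 < E.card.choose r' := Nat.choose_pos (by omega)
        simp only [Nat.succ_eq_add_one]
        omega
    have h3 : 0 < s.choose r := Nat.choose_pos hrs
    omega
  have hcard : (Z.image fun A => tr E A).card = Z.card := by
    refine card_image_of_injOn fun F hF1 F' hF1' h => ?_
    have h1 : tr E F = tr E F' := h
    rw [← map_tr E (hZ F hF1).1, h1, map_tr E (hZ F' hF1').1]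
  have h1 := kruskal_katona_lovasz_form (𝒜 := Z.image fun A => tr E A) (i := r - j) (r := r)
    (k := s) (by omega) hrs hsE (by
      intro A' hA'
      obtain ⟨A, hA, rfl⟩ := mem_image.1 hA'
      rw [card_tr E (hZ A hA).1, (hZ A hA).2]) (by rw [hcard]; exact hs)
  have h2 : r - (r - j) = j := by omega
  rw [h2] at h1
  refine h1.trans ?_
  refine card_le_card_of_injOn (fun B => B.map (emb E)) ?_ ?_
  · intro B hB
    obtain ⟨A', hA', hBA, hcA⟩ := mem_shadow_iterate_iff_exists_mem_card_add.1 hB
    obtain ⟨A, hA, rfl⟩ := mem_image.1 hA'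
    rw [card_tr E (hZ A hA).1, (hZ A hA).2] at hcA
    refine mem_coe.2 (mem_filter.2 ⟨mem_powersetCard.2 ⟨?_, ?_⟩, A, hA, ?_⟩)
    · intro v hv
      obtain ⟨i, -, rfl⟩ := mem_map.1 hv
      exact emb_mem E i
    · rw [card_map]
      omega
    · intro v hv
      obtain ⟨i, hi, rfl⟩ := mem_map.1 hv
      exact (mem_tr E).1 (hBA hi)
  · intro B _ B' _ h
    exact map_injective _ h

end Pool.Agent.H82.UI
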