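import Pool.Agent.H30.UI.Stubs
import Pool.Agent.H82.Diam.Slice

/-! # Project UI, stub UI-4: the level one inequality (helper82) -/

set_option autoImplicit false

namespace Pool.Agent.H82.UI

open Finset Pool.Agent.H30.UI Pool.Agent.H82.Diam
open Pool.Agent.H30.Diam (Ev EL ind)

variable {α : Type} [DecidableEq α]

theorem D_head (p : ℝ) {a : α} {t : List α} (ha : a ∉ t) (f : Finset α → ℝ) (φ : ℝ → ℝ) :
    EL p (a :: t) (fun W => φ (f (insert a W) - f (W.erase a))) =
      EL p t (fun W => φ (f (insert a W) - f W)) := by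
  rw [EL_cons]
  have h1 : EL p t (fun W => φ (f (insert a W) - f (W.erase a))) =
      EL p t (fun W => φ (f (insert a W) - f W)) := by
    apply EL_congr
    intro W hW
    have : a ∉ W := fun h => ha (by simpa using hW h)
    rw [Finset.erase_eq_of_notMem this]
  have h2 : EL p t (fun W => φ (f (insert a (insert a W)) - f ((insert a W).erase a))) =
      EL p t (fun W => φ (f (insert a W) - f W)) := by
    apply EL_congr
    intro W hW
    have : a ∉ W := fun h => ha (by simpa using hW h)
    rw [Finset.insert_idem, Finset.erase_insert this]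
  rw [h1, h2]
  ring

theorem D_tail (p : ℝ) {a i : α} (t : List α) (hi : a ≠ i) (f : Finset α → ℝ) (φ : ℝ → ℝ) :
    EL p (a :: t) (fun W => φ (f (insert i W) - f (W.erase i))) =
      (1 - p) * EL p t (fun W => φ (f (insert i W) - f (W.erase i))) +
      p * EL p t (fun W => φ (f (insert a (insert i W)) - f (insert a (W.erase i)))) := by
  rw [EL_cons]
  congr 3
  funext W
  rw [Finset.insert_comm, Finset.erase_insert_of_ne hi]

/-- Bessel -/
theorem bessel {p : ℝ} (hp0 : 0 ≤ p) (hp1 : p ≤ 1) : ∀ l : List α, l.Nodup → ∀ f : Finset α → ℝ,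
    (EL p l f) ^ 2 + p * (1 - p) * ∑ i ∈ l.toFinset,
      (EL p l (fun W => f (insert i W) - f (W.erase i))) ^ 2 ≤ EL p l (fun W => f W ^ 2) := by
  intro l
  induction l with
  | nil => intro _ f; simp [EL_nil]
  | cons a t ih =>
    intro hl f
    obtain ⟨ha, ht⟩ := List.nodup_cons.1 hl
    have ha' : a ∉ t.toFinset := by simpa using ha
    have h0 := ih ht f
    have h1 := ih ht (fun W => f (insert a W))
    rw [List.toFinset_cons, Finset.sum_insert ha', EL_cons p a t f,
      EL_cons p a t (fun W => f W ^ 2)]
    have e1 := D_head p ha f (fun x => x)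
    rw [e1, EL_sub]
    have e2 : ∑ i ∈ t.toFinset, (EL p (a :: t) (fun W => f (insert i W) - f (W.erase i))) ^ 2 ≤
        (1 - p) * ∑ i ∈ t.toFinset, (EL p t (fun W => f (insert i W) - f (W.erase i))) ^ 2 +
        p * ∑ i ∈ t.toFinset,
          (EL p t (fun W => f (insert a (insert i W)) - f (insert a (W.erase i)))) ^ 2 := by
      rw [Finset.mul_sum, Finset.mul_sum, ← Finset.sum_add_distrib]
      apply Finset.sum_le_sum
      intro i hi
      have hai : a ≠ i := fun h => ha' (h ▸ hi)
      have e3 := D_tail p t hai f (fun x => x)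

      rw [e3]
      nlinarith [mul_nonneg (mul_nonneg hp0 (sub_nonneg.2 hp1)) (sq_nonneg
        (EL p t (fun W => f (insert i W) - f (W.erase i)) -
        EL p t (fun W => f (insert a (insert i W)) - f (insert a (W.erase i)))))]
    have hpp : 0 ≤ p * (1 - p) := mul_nonneg hp0 (sub_nonneg.2 hp1)
    have e4 := mul_le_mul_of_nonneg_left e2 hpp
    have g0 := mul_le_mul_of_nonneg_left h0 (sub_nonneg.2 hp1)
    have g1 := mul_le_mul_of_nonneg_left h1 hp0
    nlinarith

theorem lvl : S_lvl := by
  intro α _ p hp0 hp1 l
  induction l with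
  | nil => intro _ f; simp [EL_nil]
  | cons a t ih =>
    intro hl f
    obtain ⟨ha, ht⟩ := List.nodup_cons.1 hl
    have ha' : a ∉ t.toFinset := by simpa using ha
    have h0 := ih ht f
    have h1 := ih ht (fun W => f (insert a W))
    have hb := bessel hp0 hp1 t ht (fun W => f (insert a W) - f W)
    rw [List.toFinset_cons, Finset.sum_insert ha', EL_cons p a t f,
      EL_cons p a t (fun W => f W ^ 2)]
    have e1 := D_head p ha f (fun x => x)
    have e1' := D_head p ha f (fun x => x ^ 2)
    rw [e1, e1', EL_sub]
    rw [EL_sub] at hb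
    have e2 : ∑ i ∈ t.toFinset, (EL p (a :: t) (fun W => (f (insert i W) - f (W.erase i)) ^ 2) +
        (EL p (a :: t) (fun W => f (insert i W) - f (W.erase i))) ^ 2) =
        (1 - p) * ∑ i ∈ t.toFinset, (EL p t (fun W => (f (insert i W) - f (W.erase i)) ^ 2) +
          (EL p t (fun W => f (insert i W) - f (W.erase i))) ^ 2) +
        p * ∑ i ∈ t.toFinset,
          (EL p t (fun W => (f (insert a (insert i W)) - f (insert a (W.erase i))) ^ 2) +
          (EL p t (fun W => f (insert a (insert i W)) - f (insert a (W.erase i)))) ^ 2) -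
        p * (1 - p) * ∑ i ∈ t.toFinset, (EL p t (fun W => (f (insert a (insert i W)) -
          f (insert i W)) - (f (insert a (W.erase i)) - f (W.erase i)))) ^ 2 := by
      rw [Finset.mul_sum, Finset.mul_sum, Finset.mul_sum, ← Finset.sum_add_distrib,
        ← Finset.sum_sub_distrib]
      apply Finset.sum_congr rfl
      intro i hi
      have hai : a ≠ i := fun h => ha' (h ▸ hi)
      have e3 := D_tail p t hai f (fun x => x)
      have e3' := D_tail p t hai f (fun x => x ^ 2)

      have e5 : EL p t (fun W => (f (insert a (insert i W)) - f (insert i W)) -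
          (f (insert a (W.erase i)) - f (W.erase i))) =
          EL p t (fun W => f (insert a (insert i W)) - f (insert a (W.erase i))) -
          EL p t (fun W => f (insert i W) - f (W.erase i)) := by
        rw [← EL_sub]
        congr 1
        funext W
        ring
      rw [e3, e3', e5]
      ring
    rw [e2]
    have hpp : 0 ≤ p * (1 - p) := mul_nonneg hp0 (sub_nonneg.2 hp1)
    have g0 := mul_le_mul_of_nonneg_left h0 (sub_nonneg.2 hp1)
    have g1 := mul_le_mul_of_nonneg_left h1 hp0
    have g2 := mul_le_mul_of_nonneg_left hb hpp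
    nlinarith

end Pool.Agent.H82.UI
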