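import Pool.Agent.H30.UI.Stubs

/-! # Project UI, stubs UI-22 and UI-23: numerical inequalities (helper82) -/

set_option autoImplicit false

namespace Pool.Agent.H82.UI

open Finset Pool.Agent.H30.UI

theorem fac_choose (m k : ℕ) : (k.factorial : ℝ) * (m.choose k : ℝ) =
    ∏ i ∈ range k, ((m - i : ℕ) : ℝ) := by
  have h1 := Nat.descFactorial_eq_factorial_mul_choose m k
  have h2 := Nat.descFactorial_eq_prod_range m k
  rw [h1] at h2
  exact_mod_cast h2

theorem n1 : S_n1 := by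
  refine ⟨1, ?_⟩
  intro k m hk hm
  have hk1 : (1 : ℝ) ≤ k := by exact_mod_cast hk
  set m' : ℕ := m - k - k / 100 with hm'
  have hb : ((k / 100 : ℕ) : ℝ) ≤ k / 100 := by
    have := Nat.cast_div_le (α := ℝ) (m := k) (n := 100)
    simpa using this
  have hmk : k + k / 100 + k ≤ m := by
    have : ((k + k / 100 + k : ℕ) : ℝ) ≤ m := by push_cast; linarith
    exact_mod_cast this
  have hcast : ∀ i, i < k → ((m - i : ℕ) : ℝ) = m - i ∧
      ((m' - i : ℕ) : ℝ) = m - k - ((k / 100 : ℕ) : ℝ) - i := by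
    intro i hi
    constructor
    · rw [Nat.cast_sub (by omega)]
    · rw [Nat.cast_sub (by omega), hm', Nat.cast_sub (by omega), Nat.cast_sub (by omega)]
  set c : ℕ → ℝ := fun i => if i < k / 2 then 1.6825 else 2.0307 with hc
  have hfac : ∀ i ∈ range k, ((m - i : ℕ) : ℝ) ≤ c i * ((m' - i : ℕ) : ℝ) := by
    intro i hi
    rw [mem_range] at hi
    obtain ⟨h1, h2⟩ := hcast i hi
    rw [h1, h2]
    have hi' : (i : ℝ) ≤ k := by exact_mod_cast hi.le
    simp only [hc]
    split_ifs with h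
    · have h3 : (i : ℝ) ≤ k / 2 := by
        have : 2 * i ≤ k := by omega
        have : 2 * (i : ℝ) ≤ k := by exact_mod_cast this
        linarith
      nlinarith
    · nlinarith
  have hprod : ∏ i ∈ range k, c i ≤ 3 * 1.86 ^ k := by
    have h1 : ∏ i ∈ range k, c i = 1.6825 ^ (k / 2) * 2.0307 ^ (k - k / 2) := by
      obtain ⟨r, hr⟩ : ∃ r, k = k / 2 + r := ⟨k - k / 2, by omega⟩
      have h2 : k - k / 2 = r := by omega
      rw [h2]
      conv_lhs => rw [hr]
      rw [prod_range_add]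
      congr 1
      · rw [prod_congr rfl (g := fun _ => (1.6825 : ℝ)), prod_const, card_range]
        intro i hi
        rw [mem_range] at hi
        simp only [hc]
        rw [if_pos (by omega)]
      · rw [prod_congr rfl (g := fun _ => (2.0307 : ℝ)), prod_const, card_range]
        intro i _
        simp only [hc]
        rw [if_neg (by omega)]
    rw [h1]
    have h2 : (2.0307 : ℝ) ^ (k - k / 2) ≤ 2.0307 ^ (k / 2) * 2.0307 := by
      rw [← pow_succ]
      exact pow_le_pow_right₀ (by norm_num) (by omega)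
    calc (1.6825 : ℝ) ^ (k / 2) * 2.0307 ^ (k - k / 2)
        ≤ 1.6825 ^ (k / 2) * (2.0307 ^ (k / 2) * 2.0307) :=
          mul_le_mul_of_nonneg_left h2 (by positivity)
      _ = (1.6825 * 2.0307) ^ (k / 2) * 2.0307 := by rw [mul_pow]; ring
      _ ≤ (1.86 ^ 2) ^ (k / 2) * 3 := by
          refine mul_le_mul (pow_le_pow_left₀ (by norm_num) (by norm_num) _) (by norm_num)
            (by norm_num) (by positivity)
      _ = 3 * 1.86 ^ (2 * (k / 2)) := by rw [← pow_mul]; ring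
      _ ≤ 3 * 1.86 ^ k := by
          refine mul_le_mul_of_nonneg_left ?_ (by norm_num)
          exact pow_le_pow_right₀ (by norm_num) (by omega)
  have hf : (0 : ℝ) < k.factorial := by exact_mod_cast Nat.factorial_pos k
  have h1 : (k.factorial : ℝ) * (m.choose k : ℝ) ≤
      (k.factorial : ℝ) * (3 * 1.86 ^ k * (m'.choose k : ℝ)) := by
    calc (k.factorial : ℝ) * (m.choose k : ℝ) = ∏ i ∈ range k, ((m - i : ℕ) : ℝ) := fac_choose m k
      _ ≤ ∏ i ∈ range k, (c i * ((m' - i : ℕ) : ℝ)) :=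
          prod_le_prod (fun _ _ => Nat.cast_nonneg _) hfac
      _ = (∏ i ∈ range k, c i) * ((k.factorial : ℝ) * (m'.choose k : ℝ)) := by
          rw [prod_mul_distrib, fac_choose m' k]
      _ ≤ (3 * 1.86 ^ k) * ((k.factorial : ℝ) * (m'.choose k : ℝ)) :=
          mul_le_mul_of_nonneg_right hprod (by positivity)
      _ = _ := by ring
  exact le_of_mul_le_mul_left h1 hf

theorem central4_step (j : ℕ) (hj : 10 ≤ j) : 9 * (4 * j).choose j ≤ (4 * (j + 1)).choose (j + 1) := by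
  -- `C(4j+4, j+1) (j+1)(3j+3)(3j+2)(3j+1) = C(4j,j) (4j+4)(4j+3)(4j+2)(4j+1)`
  have e1 := Nat.add_one_mul_choose_eq (4 * j + 3) j
  have e2 := Nat.choose_mul_succ_eq (4 * j + 2) j
  have e3 := Nat.choose_mul_succ_eq (4 * j + 1) j
  have e4 := Nat.choose_mul_succ_eq (4 * j) j
  have s2 : 4 * j + 2 + 1 - j = 3 * j + 3 := by omega
  have s3 : 4 * j + 1 + 1 - j = 3 * j + 2 := by omega
  have s4 : 4 * j + 1 - j = 3 * j + 1 := by omega
  rw [s2] at e2
  rw [s3] at e3
  rw [s4] at e4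
  have hA : 4 * (j + 1) = 4 * j + 3 + 1 := by ring
  rw [hA]
  set A := (4 * j).choose j
  set B := (4 * j + 1).choose j
  set C := (4 * j + 1 + 1).choose j with hC
  set D := (4 * j + 2 + 1).choose j with hD
  set Z := (4 * j + 3 + 1).choose (j + 1)
  -- multiply
  have key : Z * ((j + 1) * ((3 * j + 3) * ((3 * j + 2) * (3 * j + 1)))) =
      A * ((4 * j + 4) * ((4 * j + 3) * ((4 * j + 2) * (4 * j + 1)))) := by
    calc Z * ((j + 1) * ((3 * j + 3) * ((3 * j + 2) * (3 * j + 1))))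
        = (Z * (j + 1)) * ((3 * j + 3) * ((3 * j + 2) * (3 * j + 1))) := by ring
      _ = ((4 * j + 3 + 1) * D) * ((3 * j + 3) * ((3 * j + 2) * (3 * j + 1))) := by rw [← e1]
      _ = (4 * j + 4) * (D * (3 * j + 3)) * ((3 * j + 2) * (3 * j + 1)) := by ring
      _ = (4 * j + 4) * (C * (4 * j + 2 + 1)) * ((3 * j + 2) * (3 * j + 1)) := by rw [← e2]
      _ = (4 * j + 4) * (4 * j + 3) * (C * (3 * j + 2)) * (3 * j + 1) := by ring
      _ = (4 * j + 4) * (4 * j + 3) * (B * (4 * j + 1 + 1)) * (3 * j + 1) := by rw [← e3]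
      _ = (4 * j + 4) * (4 * j + 3) * (4 * j + 2) * (B * (3 * j + 1)) := by ring
      _ = (4 * j + 4) * (4 * j + 3) * (4 * j + 2) * (A * (4 * j + 1)) := by rw [← e4]
      _ = _ := by ring
  have hnum : 9 * ((j + 1) * ((3 * j + 3) * ((3 * j + 2) * (3 * j + 1)))) ≤
      (4 * j + 4) * ((4 * j + 3) * ((4 * j + 2) * (4 * j + 1))) := by
    obtain ⟨i, rfl⟩ : ∃ i, j = i + 10 := ⟨j - 10, by omega⟩
    have h0 : 9 * ((3 * (i + 10) + 3) * ((3 * (i + 10) + 2) * (3 * (i + 10) + 1))) ≤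
        4 * ((4 * (i + 10) + 3) * ((4 * (i + 10) + 2) * (4 * (i + 10) + 1))) := by
      nlinarith [Nat.zero_le i, Nat.zero_le (i * i), Nat.zero_le (i * i * i)]
    calc 9 * ((i + 10 + 1) * ((3 * (i + 10) + 3) * ((3 * (i + 10) + 2) * (3 * (i + 10) + 1))))
        = (i + 10 + 1) * (9 * ((3 * (i + 10) + 3) * ((3 * (i + 10) + 2) * (3 * (i + 10) + 1)))) := by
          ring
      _ ≤ (i + 10 + 1) * (4 * ((4 * (i + 10) + 3) * ((4 * (i + 10) + 2) * (4 * (i + 10) + 1)))) :=
          Nat.mul_le_mul_left _ h0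
      _ = _ := by ring
  have hpos : 0 < (j + 1) * ((3 * j + 3) * ((3 * j + 2) * (3 * j + 1))) := by positivity
  have hfin : (9 * A) * ((j + 1) * ((3 * j + 3) * ((3 * j + 2) * (3 * j + 1)))) ≤
      Z * ((j + 1) * ((3 * j + 3) * ((3 * j + 2) * (3 * j + 1)))) := by
    rw [key]
    calc (9 * A) * ((j + 1) * ((3 * j + 3) * ((3 * j + 2) * (3 * j + 1))))
        = A * (9 * ((j + 1) * ((3 * j + 3) * ((3 * j + 2) * (3 * j + 1))))) := by ring
      _ ≤ _ := Nat.mul_le_mul_left _ hnum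
  exact Nat.le_of_mul_le_mul_right hfin hpos

theorem central4 (i : ℕ) : 9 ^ i ≤ (4 * (i + 10)).choose (i + 10) := by
  induction i with
  | zero =>
    rw [pow_zero]
    exact Nat.choose_pos (by omega)
  | succ i ih =>
    have h := central4_step (i + 10) (by omega)
    have e : i + 1 + 10 = i + 10 + 1 := by ring
    rw [e, pow_succ, mul_comm]
    exact (Nat.mul_le_mul_left 9 ih).trans h

theorem n2 : S_n2 := by
  refine ⟨900, ?_⟩
  intro k z hk hz
  set j : ℕ := 8 * k / 25 with hj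
  set q : ℕ := k / 25 with hq
  have hjq : 8 * q ≤ j := by omega
  have hq36 : 36 ≤ q := by omega
  have hzj : k - 1 + j ≤ z := by
    have h1 : (j : ℝ) ≤ 8 * k / 25 := by
      have := Nat.cast_div_le (α := ℝ) (m := 8 * k) (n := 25)
      push_cast at this
      exact this
    have h2 : ((k - 1 + j : ℕ) : ℝ) ≤ k + j := by
      have : k - 1 + j ≤ k + j := by omega
      exact_mod_cast this
    have h3 : ((k - 1 + j : ℕ) : ℝ) ≤ z := by
      refine h2.trans ?_
      have : (1.32 : ℝ) * k = k + 8 * k / 25 := by ring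
      linarith
    exact_mod_cast h3
  have h1 : 9 ^ (j - 10) ≤ z.choose (k - 1) := by
    have a1 := central4 (j - 10)
    have a2 : j - 10 + 10 = j := by omega
    rw [a2] at a1
    have a3 : (4 * j).choose j ≤ (k - 1 + j).choose j := Nat.choose_le_choose j (by omega)
    have a4 : (k - 1 + j).choose j = (k - 1 + j).choose (k - 1) := by
      rw [← Nat.choose_symm_add, add_comm]
    have a5 : (k - 1 + j).choose (k - 1) ≤ z.choose (k - 1) := Nat.choose_le_choose _ hzj
    exact a1.trans (a3.trans (a4.le.trans a5))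
  have h2 : (1.93 : ℝ) ^ k ≤ (9 : ℝ) ^ (j - 10) := by
    have b1 : (1.93 : ℝ) ^ k ≤ 1.93 ^ (25 * (q + 1)) := pow_le_pow_right₀ (by norm_num) (by omega)
    have b2 : (3 : ℝ) * 1.93 ^ 25 ≤ 9 ^ 8 := by norm_num
    have b3 : ((3 : ℝ) * 1.93 ^ 25) ^ (q + 1) ≤ (9 ^ 8) ^ (q + 1) :=
      pow_le_pow_left₀ (by positivity) b2 _
    rw [mul_pow, ← pow_mul, ← pow_mul] at b3
    have b4 : (9 : ℝ) ^ (8 * (q + 1)) = 9 ^ (8 * q - 10) * 9 ^ 18 := by
      rw [← pow_add]
      congr 1
      omega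
    have b5 : (9 : ℝ) ^ 18 ≤ 3 ^ (q + 1) := by
      calc (9 : ℝ) ^ 18 = 3 ^ 36 := by norm_num
        _ ≤ 3 ^ (q + 1) := pow_le_pow_right₀ (by norm_num) (by omega)
    have b6 : (3 : ℝ) ^ (q + 1) * 1.93 ^ (25 * (q + 1)) ≤ 3 ^ (q + 1) * 9 ^ (8 * q - 10) := by
      refine b3.trans ?_
      rw [b4, mul_comm]
      exact mul_le_mul_of_nonneg_right b5 (by positivity)
    have b7 : (1.93 : ℝ) ^ (25 * (q + 1)) ≤ 9 ^ (8 * q - 10) :=
      le_of_mul_le_mul_left b6 (by positivity)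
    have b8 : (9 : ℝ) ^ (8 * q - 10) ≤ 9 ^ (j - 10) := pow_le_pow_right₀ (by norm_num) (by omega)
    exact b1.trans (b7.trans b8)
  refine h2.trans ?_
  exact_mod_cast h1

end Pool.Agent.H82.UI
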