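import Pool.Agent.H30.UI.Stubs
import Pool.Agent.H82.Diam.Slice

/-! # Project UI, stub UI-8: from a slice to the product measure (helper82) -/

set_option autoImplicit false

namespace Pool.Agent.H82.UI

open Finset Pool.Agent.H30.UI Pool.Agent.H82.Diam
open Pool.Agent.H30.Diam (Ev EL ind)

/-- expectation of a function of the size -/
theorem Ev_card {V : Type} [Fintype V] [DecidableEq V] (q : ℝ) (φ : ℕ → ℝ) :
    Ev q (fun W : Finset V => φ W.card) = ∑ s ∈ range (Fintype.card V + 1),
      ((Fintype.card V).choose s : ℝ) * (q ^ s * (1 - q) ^ (Fintype.card V - s)) * φ s := by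
  rw [Ev_formula]
  have h := Finset.sum_powerset_apply_card (x := (univ : Finset V))
    (fun n => q ^ n * (1 - q) ^ (Fintype.card V - n) * φ n)
  rw [h, Finset.card_univ]
  apply Finset.sum_congr rfl
  intro s _
  rw [nsmul_eq_mul]
  ring

theorem slice2 : S_slice2 := by
  intro V _ _ P hP0 hP1 k B hB
  set m : ℕ := Fintype.card V with hm
  set b : ℕ → ℝ := fun s => (m.choose s : ℝ) * (P ^ s * (1 - P) ^ (m - s)) with hb
  have hEv : Ev P (fun W : Finset V => ind (k ≤ W.card)) = ∑ s ∈ Ico k (m + 1), b s := by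
    have h1 := Ev_card (V := V) P (fun s => ind (k ≤ s))
    rw [h1, ← hm, Finset.range_eq_Ico]
    have h2 : (Ico k (m + 1)) = (Ico 0 (m + 1)).filter (fun s => k ≤ s) := by
      ext s
      simp only [mem_Ico, mem_filter]
      omega
    rw [h2, Finset.sum_filter]
    apply Finset.sum_congr rfl
    intro s _
    simp only [hb]
    split_ifs with h
    · rw [ind_true h, mul_one]
    · rw [ind_false h, mul_zero]
  rw [hEv, mul_comm]
  set wt : ℕ → ℝ := fun s => P ^ s * (1 - P) ^ (m - s) with hwt
  have hwt0 : ∀ s, 0 ≤ wt s := fun s => by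
    have : 0 ≤ 1 - P := by linarith
    simp only [hwt]
    positivity
  have h1 : ∀ W : Finset V, ((B.filter (fun F => F ⊆ W)).card : ℝ) / (W.card.choose k : ℝ) ≤
      ind (∃ F ∈ B, F ⊆ W) := by
    intro W
    by_cases hex : ∃ F ∈ B, F ⊆ W
    · rw [ind_true hex]
      have h2 : (B.filter (fun F => F ⊆ W)).card ≤ W.card.choose k := by
        rw [← Finset.card_powersetCard]
        apply Finset.card_le_card
        intro F hF
        obtain ⟨g1, g2⟩ := Finset.mem_filter.1 hF
        exact Finset.mem_powersetCard.2 ⟨g2, hB F g1⟩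
      apply div_le_one_of_le₀ (by exact_mod_cast h2) (Nat.cast_nonneg _)
    · have h2 : B.filter (fun F => F ⊆ W) = ∅ := by
        rw [Finset.filter_eq_empty_iff]
        exact fun F hF h => hex ⟨F, hF, h⟩
      rw [h2]
      simp only [Finset.card_empty, Nat.cast_zero, zero_div]
      exact ind_nonneg _
  have h2 : ∑ W ∈ (univ : Finset V).powerset,
      wt W.card * (((B.filter (fun F => F ⊆ W)).card : ℝ) / (W.card.choose k : ℝ)) ≤
      Ev P (fun W : Finset V => ind (∃ F ∈ B, F ⊆ W)) := by
    rw [Ev_formula]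
    apply Finset.sum_le_sum
    intro W _
    exact mul_le_mul_of_nonneg_left (h1 W) (hwt0 W.card)
  have h3 : ∑ W ∈ (univ : Finset V).powerset,
      wt W.card * (((B.filter (fun F => F ⊆ W)).card : ℝ) / (W.card.choose k : ℝ)) =
      ∑ F ∈ B, ∑ W ∈ (univ : Finset V).powerset.filter (fun W => F ⊆ W),
        wt W.card / (W.card.choose k : ℝ) := by
    have h4 : ∀ W : Finset V, wt W.card * (((B.filter (fun F => F ⊆ W)).card : ℝ) /
        (W.card.choose k : ℝ)) = ∑ F ∈ B, if F ⊆ W then wt W.card / (W.card.choose k : ℝ) else 0 := by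
      intro W
      rw [← Finset.sum_filter, Finset.sum_const, nsmul_eq_mul]
      ring
    rw [Finset.sum_congr rfl (fun W _ => h4 W), Finset.sum_comm]
    apply Finset.sum_congr rfl
    intro F _
    rw [Finset.sum_filter]
  have h5 : ∀ F ∈ B, (m.choose k : ℝ) * ∑ W ∈ (univ : Finset V).powerset.filter (fun W => F ⊆ W),
        wt W.card / (W.card.choose k : ℝ) = ∑ s ∈ Ico k (m + 1), b s := by
    intro F hF
    have hkm : k ≤ m := by
      rw [← hB F hF, hm]
      exact Finset.card_le_univ F
    have hs := sum_supset F (fun s => wt s / (s.choose k : ℝ))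
    rw [hs, hB F hF, ← hm, Finset.mul_sum, Finset.sum_Ico_eq_sum_range]
    rw [show m + 1 - k = m - k + 1 by omega]
    apply Finset.sum_congr rfl
    intro j hj
    have hj' : k + j ≤ m := by
      rw [Finset.mem_range] at hj
      omega
    simp only [hb, hwt]
    rw [← choose_ratio hj']
    ring
  calc (B.card : ℝ) * ∑ s ∈ Ico k (m + 1), b s = ∑ F ∈ B, ∑ s ∈ Ico k (m + 1), b s := by
        rw [Finset.sum_const, nsmul_eq_mul]
    _ = (m.choose k : ℝ) * ∑ F ∈ B, ∑ W ∈ (univ : Finset V).powerset.filter (fun W => F ⊆ W),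
        wt W.card / (W.card.choose k : ℝ) := by
        rw [Finset.mul_sum]
        exact Finset.sum_congr rfl fun F hF => (h5 F hF).symm
    _ ≤ _ := by
        rw [← h3]
        exact mul_le_mul_of_nonneg_left h2 (Nat.cast_nonneg _)

end Pool.Agent.H82.UI
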