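import Pool.Agent.H82.UI.Dict

/-! # Project UI, stub UI-10: stability of intersecting families (helper82) -/

set_option autoImplicit false

namespace Pool.Agent.H82.UI

open Finset Pool.Agent.H30.UI Pool.Agent.H82.Diam
open Pool.Agent.H30.Diam (Ev EL ind)

theorem Ev_split {V : Type} [Fintype V] [DecidableEq V] (p : ℝ) (k : ℕ) :
    Ev p (fun W : Finset V => ind (k ≤ W.card)) = 1 - Ev p (fun W : Finset V => ind (W.card < k)) := by
  have h : Ev p (fun W : Finset V => ind (k ≤ W.card)) +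
      Ev p (fun W : Finset V => ind (W.card < k)) = 1 := by
    unfold Ev
    rw [← EL_add]
    have : (fun W : Finset V => ind (k ≤ W.card) + ind (W.card < k)) = fun _ => (1 : ℝ) := by
      funext W
      by_cases h : k ≤ W.card
      · rw [ind_true h, ind_false (not_lt.2 h), add_zero]
      · rw [ind_false h, ind_true (not_le.1 h), zero_add]
    rw [this, EL_const]
  linarith

theorem exists_pt {a b' c p₁ : ℝ} (L : ℕ) (ha : 0 < a) (ha1 : a < 1) (hab : a ≤ b') (hc0 : 0 < c)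
    (hc1 : c ≤ 1) (hp0 : 0 < p₁) (hpb : p₁ ≤ b') :
    ∃ p t : ℝ, a ≤ p ∧ p ≤ b' ∧ 1 ≤ t ∧ p ^ t = p₁ ∧ (c * a ^ L) ^ t ≤ c * p₁ ^ L := by
  rcases le_or_gt a p₁ with h | h
  · refine ⟨p₁, 1, h, hpb, le_rfl, Real.rpow_one _, ?_⟩
    rw [Real.rpow_one]
    exact mul_le_mul_of_nonneg_left (pow_le_pow_left₀ ha.le h L) hc0.le
  · have hlog : Real.log a < 0 := Real.log_neg ha ha1
    have ht1 : 1 ≤ Real.log p₁ / Real.log a := by
      rw [one_le_div_of_neg hlog]
      exact Real.log_le_log hp0 h.le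
    have hpt : a ^ (Real.log p₁ / Real.log a) = p₁ := by
      rw [Real.rpow_def_of_pos ha, mul_div_cancel₀ _ hlog.ne, Real.exp_log hp0]
    refine ⟨a, Real.log p₁ / Real.log a, le_rfl, hab, ht1, hpt, ?_⟩
    rw [Real.mul_rpow hc0.le (by positivity), ← Real.rpow_pow_comm ha.le, hpt]
    refine mul_le_mul_of_nonneg_right ?_ (by positivity)
    calc c ^ (Real.log p₁ / Real.log a) ≤ c ^ (1 : ℝ) :=
          Real.rpow_le_rpow_of_exponent_ge hc0 hc1 ht1
      _ = c := Real.rpow_one c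

theorem choose_id {n k : ℕ} (h1 : 1 ≤ k) (h2 : k ≤ n) :
    ((n - 1).choose (k - 1) : ℝ) * n = (n.choose k : ℝ) * k := by
  obtain ⟨n', rfl⟩ : ∃ n', n = n' + 1 := ⟨n - 1, by omega⟩
  obtain ⟨k', rfl⟩ : ∃ k', k = k' + 1 := ⟨k - 1, by omega⟩
  have := Nat.add_one_mul_choose_eq n' k'
  simp only [Nat.add_sub_cancel]
  rw [mul_comm]
  exact_mod_cast this

theorem stab' (hD : S_dict) (hS : S_slice2) (hC : S_cheb) {b : ℝ} (hb4 : 1 / 4 ≤ b)
    (hb : b < 1 / 2) (ε : ℝ) (hε : 0 < ε) (L : ℕ) : ∃ η : ℝ, 0 < η ∧ ∃ k0 : ℕ,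
  ∀ (V : Type) [Fintype V] [DecidableEq V] (k : ℕ), k0 ≤ k → (k : ℝ) ≤ b * Fintype.card V →
  ∀ F : Finset (Finset V), (∀ A ∈ F, A.card = k) → (∀ A ∈ F, ∀ B ∈ F, ¬ Disjoint A B) →
  (1 - η) * ((Fintype.card V - 1).choose (k - 1) : ℝ) ≤ F.card →
  ∃ x : V, ((F.filter (fun A => x ∉ A)).card : ℝ) ≤
    ε * ((k : ℝ) / Fintype.card V) ^ L * ((Fintype.card V).choose k : ℝ) := by
  set c : ℝ := min 1 (ε / 2 ^ (L + 1)) with hc
  have hc0 : 0 < c := lt_min one_pos (by positivity)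
  have hc1 : c ≤ 1 := min_le_left _ _
  have hcε : c * 2 ^ (L + 1) ≤ ε := by
    rw [← le_div_iff₀ (by positivity)]
    exact min_le_right _ _
  set b' : ℝ := (b + 1 / 2) / 2 with hb'
  have hb'2 : b' < 1 / 2 := by rw [hb']; linarith
  have hbb' : b < b' := by rw [hb']; linarith
  obtain ⟨η₀, hη₀, hdict⟩ := hD (1 / 8) b' (c * (1 / 8) ^ L) (by norm_num) hb'2 (by positivity)
  set η₁ : ℝ := min η₀ 1 with hη₁
  have hη0 : 0 < η₁ := lt_min hη₀ one_pos
  have hη1 : η₁ ≤ 1 := min_le_right _ _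
  have hηle : η₁ ≤ η₀ := min_le_left _ _
  set κ : ℝ := min (η₁ / 4) ((b' - b) / b) with hκ
  have hb0 : 0 < b := by linarith
  have hκ0 : 0 < κ := lt_min (by positivity) (div_pos (by linarith) hb0)
  have hκη : κ ≤ η₁ / 4 := min_le_left _ _
  have hκ1 : κ ≤ 1 := by linarith
  have hκb : (1 + κ) * b ≤ b' := by
    have : κ ≤ (b' - b) / b := min_le_right _ _
    rw [le_div_iff₀ hb0] at this
    linarith
  refine ⟨η₁ / 4, by positivity, ⌈8 / (κ ^ 2 * η₁)⌉₊ + 1, ?_⟩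
  intro V _ _ k hk hkb F hF hFI hFc
  set n : ℕ := Fintype.card V with hn
  have hk1 : 1 ≤ k := by omega
  have hk1' : (1 : ℝ) ≤ k := by exact_mod_cast hk1
  have hk8 : 8 / (κ ^ 2 * η₁) ≤ k := by
    refine (Nat.le_ceil _).trans ?_
    exact_mod_cast (by omega : ⌈8 / (κ ^ 2 * η₁)⌉₊ ≤ k)
  have hn0 : (0 : ℝ) < n := by
    by_contra hcon
    push Not at hcon
    have : b * (n : ℝ) ≤ 0 := mul_nonpos_of_nonneg_of_nonpos hb0.le hcon
    linarith
  have hk0 : (0 : ℝ) < k := by linarith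
  -- the parameter
  set p₁ : ℝ := (1 + κ) * (k / n) with hp₁
  have hp0 : 0 < p₁ := by positivity
  have hpb : p₁ ≤ b' := by
    have : (k : ℝ) / n ≤ b := by rw [div_le_iff₀ hn0]; exact hkb
    calc p₁ ≤ (1 + κ) * b := mul_le_mul_of_nonneg_left this (by positivity)
      _ ≤ b' := hκb
  have hp1 : p₁ ≤ 1 := by linarith
  have hpn : p₁ * n = (1 + κ) * k := by rw [hp₁]; field_simp
  -- the size of the random set
  have hbig : 1 - η₁ / 4 ≤ Ev p₁ (fun W : Finset V => ind (k ≤ W.card)) := by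
    rw [Ev_split]
    have h1 := hC V p₁ hp0.le hp1 k (by rw [← hn, hpn]; nlinarith)
    rw [← hn, hpn] at h1
    have h2 : (1 + κ) * (k : ℝ) / ((1 + κ) * k - k) ^ 2 ≤ η₁ / 4 := by
      have e1 : (1 + κ) * (k : ℝ) - k = κ * k := by ring
      rw [e1, div_le_iff₀ (by positivity)]
      rw [div_le_iff₀ (by positivity)] at hk8
      have h3 : (1 + κ) * (k : ℝ) ≤ 2 * k := by nlinarith
      have h4 : 2 * (k : ℝ) ≤ η₁ / 4 * (κ * k) ^ 2 := by
        have : η₁ / 4 * (κ * k) ^ 2 = (k * (κ ^ 2 * η₁)) * k / 4 := by ring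
        rw [this]
        nlinarith
      linarith
    linarith
  have hhalf : 1 / 2 ≤ Ev p₁ (fun W : Finset V => ind (k ≤ W.card)) := by linarith
  -- the family
  set P : Finset V → Prop := fun W => ∃ A ∈ F, A ⊆ W with hP
  have hUp : Up P := fun A B hAB ⟨C, hC, h⟩ => ⟨C, hC, h.trans hAB⟩
  have hInt : Int P := by
    rintro A B ⟨A', hA, hA'⟩ ⟨B', hB, hB'⟩ hd
    exact hFI A' hA B' hB (Finset.disjoint_of_subset_left hA' (Finset.disjoint_of_subset_right hB' hd))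
  have hkn : k ≤ n := by
    have : (k : ℝ) ≤ n := by nlinarith
    exact_mod_cast this
  have hch : ((n - 1).choose (k - 1) : ℝ) * n = (n.choose k : ℝ) * k := by
    exact choose_id hk1 hkn
  have hcpos : (0 : ℝ) < n.choose k := by exact_mod_cast Nat.choose_pos hkn
  have hlow : (1 - η₁) * p₁ ≤ Ev p₁ (fun W => ind (P W)) := by
    have h1 := hS V p₁ hp0.le hp1 k F hF
    rw [← hn] at h1
    have h2 : (1 - η₁ / 4) * ((1 - η₁ / 4) * ((n.choose k : ℝ) * (k / n))) ≤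
        (n.choose k : ℝ) * Ev p₁ (fun W => ind (P W)) := by
      refine le_trans ?_ h1
      have h3 : (1 - η₁ / 4) * ((n.choose k : ℝ) * (k / n)) ≤ F.card := by
        have : (n.choose k : ℝ) * (k / n) = ((n - 1).choose (k - 1) : ℝ) := by
          rw [← mul_div_assoc, ← hch]
          field_simp
        rw [this]
        exact hFc
      exact mul_le_mul hbig h3 (mul_nonneg (by linarith) (by positivity)) (by linarith)
    have h4 : (n.choose k : ℝ) * ((1 - η₁) * p₁) ≤ (n.choose k : ℝ) * Ev p₁ (fun W => ind (P W)) := by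
      refine le_trans ?_ h2
      have h5 : (1 - η₁) * (1 + κ) ≤ (1 - η₁ / 4) * (1 - η₁ / 4) := by
        have : (1 - η₁) * (1 + κ) ≤ (1 - η₁) * (1 + η₁ / 4) :=
          mul_le_mul_of_nonneg_left (by linarith) (by linarith)
        nlinarith
      have h6 : 0 ≤ (n.choose k : ℝ) * (k / n) := by positivity
      have h7 := mul_le_mul_of_nonneg_right h5 h6
      rw [hp₁]
      linarith
    exact le_of_mul_le_mul_left h4 hcpos
  -- the power
  obtain ⟨p, t, hap, hpb', ht, hpt, hct⟩ := exists_pt (a := 1 / 8) (b' := b') (c := c) L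
    (by norm_num) (by norm_num) (by linarith) hc0 hc1 hp0 hpb
  have hpp0 : 0 < p := by linarith
  have hpp1 : p ≤ 1 := by linarith
  have hEp : (1 - η₀) * p ≤ Ev p (fun W => ind (P W)) := by
    have hle : (1 - η₁) * p ≤ Ev p (fun W => ind (P W)) := by
      by_contra hcon
      push Not at hcon
      have h1 := Ev_rpow (V := V) hpp0.le hpp1 ht hUp
      rw [hpt] at h1
      have h2 : (Ev p (fun W => ind (P W))) ^ t < ((1 - η₁) * p) ^ t :=
        Real.rpow_lt_rpow (Ev_nonneg' hpp0.le hpp1 P) hcon (by linarith)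
      rw [Real.mul_rpow (by linarith) hpp0.le, hpt] at h2
      have h3 : (1 - η₁) ^ t ≤ 1 - η₁ := by
        calc (1 - η₁) ^ t ≤ (1 - η₁) ^ (1 : ℝ) :=
              Real.rpow_le_rpow_of_exponent_ge' (by linarith) (by linarith) (by norm_num) ht
          _ = 1 - η₁ := Real.rpow_one _
      have h4 := mul_le_mul_of_nonneg_right h3 hp0.le
      linarith
    refine le_trans ?_ hle
    exact mul_le_mul_of_nonneg_right (by linarith) hpp0.le
  obtain ⟨x, hx⟩ := hdict V P hUp hInt p hap hpb' hEp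
  refine ⟨x, ?_⟩
  have hQ : Up (fun W : Finset V => P (W.erase x)) := fun A B hAB h =>
    hUp _ _ (Finset.erase_subset_erase x hAB) h
  have hQ1 : Ev p₁ (fun W => ind (P (W.erase x))) ≤ c * p₁ ^ L := by
    have h1 := Ev_rpow (V := V) hpp0.le hpp1 ht hQ
    rw [hpt] at h1
    refine h1.trans (le_trans ?_ hct)
    exact Real.rpow_le_rpow (Ev_nonneg' hpp0.le hpp1 _) hx (by linarith)
  have hB := hS V p₁ hp0.le hp1 k (F.filter (fun A => x ∉ A))
    (fun A hA => hF A (Finset.mem_filter.1 hA).1)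
  rw [← hn] at hB
  have hB1 : Ev p₁ (fun W : Finset V => ind (∃ A ∈ F.filter (fun A => x ∉ A), A ⊆ W)) ≤
      c * p₁ ^ L := by
    refine le_trans ?_ hQ1
    refine EL_mono hp0.le hp1 _ _ _ fun W _ => ind_mono ?_
    rintro ⟨A, hA, hAW⟩
    obtain ⟨g1, g2⟩ := Finset.mem_filter.1 hA
    exact ⟨A, g1, fun y hy => Finset.mem_erase.2 ⟨fun h => g2 (h ▸ hy), hAW hy⟩⟩
  have hB2 : 1 / 2 * ((F.filter (fun A => x ∉ A)).card : ℝ) ≤ (n.choose k : ℝ) * (c * p₁ ^ L) := by
    refine le_trans (mul_le_mul_of_nonneg_right hhalf (Nat.cast_nonneg _)) (hB.trans ?_)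
    exact mul_le_mul_of_nonneg_left hB1 hcpos.le
  have hpL : p₁ ^ L ≤ 2 ^ L * ((k : ℝ) / n) ^ L := by
    rw [hp₁, mul_pow]
    refine mul_le_mul_of_nonneg_right (pow_le_pow_left₀ (by linarith) (by linarith) L) (by positivity)
  calc ((F.filter (fun A => x ∉ A)).card : ℝ) ≤ 2 * ((n.choose k : ℝ) * (c * p₁ ^ L)) := by linarith
    _ ≤ 2 * ((n.choose k : ℝ) * (c * (2 ^ L * ((k : ℝ) / n) ^ L))) := by
        gcongr
    _ = (c * 2 ^ (L + 1)) * (((k : ℝ) / n) ^ L * (n.choose k : ℝ)) := by rw [pow_succ]; ring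
    _ ≤ ε * (((k : ℝ) / n) ^ L * (n.choose k : ℝ)) :=
        mul_le_mul_of_nonneg_right hcε (by positivity)
    _ = _ := by ring

theorem stab (hD : S_dict) (hS : S_slice2) (hC : S_cheb) : S_stab := by
  intro b hb ε hε L
  obtain ⟨η, hη, k0, h⟩ := stab' hD hS hC (b := max b (1 / 4)) (le_max_right _ _)
    (max_lt hb (by norm_num)) ε hε L
  refine ⟨η, hη, k0, ?_⟩
  intro V _ _ k hk hkb F hF hFI hFc
  refine h V k hk (hkb.trans ?_) F hF hFI hFc
  exact mul_le_mul_of_nonneg_right (le_max_left _ _) (Nat.cast_nonneg _)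

end Pool.Agent.H82.UI
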